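import Pool.Agent.K9h22.NcmMain

/-!
# The noncommutative Kunneth conjecture when one part of `HP` is generated by known categories

Let `k` be a field of characteristic zero and `A` a saturated dg category over `k`. Let `B` be a saturated dg
category for which the conjectures `C_NC(B)` and `D_NC` hold, the second one for the endomorphisms of `B`
(rational coefficients): a correspondence `f` from `B` to `B` which is numerically trivial, that is
`χ(f g) = 0` for all correspondences `g`, acts as zero on `HP(B)`.

Theorem: suppose that for ONE parity `i` there are correspondences `a` from `B` to `A` and `a'` from `A` to
`B` such that `a` maps `HP^i(B)` onto `HP^i(A)` and `a'` is injective on `HP^i(A)`. Then the Kunneth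
projectors `π⁺` and `π⁻` of `A` are algebraic, with rational coefficients (so for all coefficient fields
`F`). Nothing is supposed about the other part of `HP(A)`, about the composite of `a` and `a'`, or about
algebraic classes in `HP(A)`; no positivity is used.

Here `B` can be the product of finitely many dg categories `B_j`, so that `HP^i(A)` is generated by the
images of finitely many noncommutative correspondences from the `B_j`; the condition on `a'` is the
same condition for the opposite category of `A`, by duality.

Examples for `B` (with known theorems): `B = perf(X)`, `X` a disjoint union of products of curves, surfaces
and abelian varieties, or any `X` with the Lefschetz standard conjecture, since in characteristic zero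
homological and numerical equivalence then coincide for `X` and `X × X` (Lieberman), and since `K_0(X × X)` with
rational coefficients is the Chow ring. So `C_NC(A)` holds for all `A` such that the odd part of `HP(A)` and of
`HP(A^op)` is generated by noncommutative correspondences from such varieties, for example from curves
(as for `HP⁻` of level one), and also for all `A` such that the even parts are generated in this way.
The categories `A` need not be geometric.

Idea of the proof. With the Kunneth projector `e` of `B` the correspondence `M = a' a e` of `B` acts only on
the part `i`. By `D_NC` for `B` the equation `M g M = M` on `HP^i(B)` can be solved by a correspondence `g` with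
rational coefficients, because it can be solved by a linear map, and because the relevant linear equations have
rational coefficients: both sides are determined by the numbers `χ(M g M h)` and `χ(M h)`. Then `a g e a'` is
the projector of `A`.
-/

set_option autoImplicit false

universe u v

namespace Pool.Agent.Results.MP_eadf0f_ag.GeneratedParity

open Pool.Agent.K9h22.Ncm

/-- **The noncommutative Kunneth conjecture from one generated parity.** Let `B` satisfy `C_NC` and `D_NC` (for
its endomorphisms). If for one parity `i` a correspondence from `B` to `A` maps `HP^i(B)` onto `HP^i(A)` and a
correspondence from `A` to `B` is injective on `HP^i(A)`, then `C_NC(A)` holds. -/
theorem result {C : Corr.{u}} {K : Type} [Field K] [CharZero K] {R : Realisation.{u, v} C K}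
    (hR : IsRealisation R) {A B : C.Cat} (hC : Kunneth R B) (hD : HomEqNum R B) (i : Bool)
    (a : C.Hom B A) (a' : C.Hom A B) (ha : Function.Surjective (R.act i a))
    (ha' : Function.Injective (R.act i a')) : Kunneth R A :=
  kunneth_of_generated hR hC hD i a a' ha ha'

end Pool.Agent.Results.MP_eadf0f_ag.GeneratedParity
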