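import Mathlib

/-!
# The noncommutative Kunneth conjecture fails in positive characteristic when `TP` has torsion

The problem allows every base field `k`, and a coefficient field `F ⊆ k` or `F ⊇ k`. Let `k` be a perfect
field of characteristic `p` (for example an algebraically closed one). Then periodic cyclic homology over
`k` lifts to topological periodic cyclic homology: for a saturated dg category `A` there are finitely
generated modules `TP_i(A)` over the ring `W(k)` of Witt vectors, of period two in `i`, with exact sequences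

`0 ⟶ TP_i(A) / p ⟶ HP_i(A) ⟶ TP_{i-1}(A)[p] ⟶ 0`

natural for the elements of the groups `K_0(A^op ⊗ B)`.

Theorem: if the `W(k)`-module `TP_0(A) ⊕ TP_1(A)` has `p`-torsion, then the Kunneth projectors `π⁺` and
`π⁻` of `A` are not algebraic, whatever the coefficient field `F` is. More precisely, if a combination of
elements of `K_0(A^op ⊗ A)` with coefficients in an extension field `E` of `k` acts on the even part as the
scalar `α` and on the odd part as the scalar `β`, then `α = β`.

By the exact sequences `TP` has torsion if and only if `dim HP_0(A) + dim HP_1(A)` is larger than the rank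
of `TP_0(A) ⊕ TP_1(A)`. For a smooth proper surface `X` (in characteristic `2`, or in any characteristic)
the rank is the sum of the Betti numbers, and the dimension of `HP_*` is the dimension of the de Rham
cohomology. So the conjecture fails for `perf(X)` when the crystalline cohomology of the surface `X` has
torsion: for the classical Enriques surfaces in characteristic two, and for the Godeaux-Serre surfaces
`Y / (ℤ/p)`, `Y` a complete intersection, in every characteristic `p`. These exist over all algebraically
closed fields of characteristic `p`.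

Idea: let `T` be the torsion of `TP_i(A)`, and let `m` be minimal with `p ^ m T = 0`. Multiplication by
`p ^ (m - 1)` is a nonzero map from `T / p`, a subspace of `HP_i(A)`, to `T[p]`, a quotient of `HP_{i+1}(A)`,
which commutes with all correspondences.
-/

set_option autoImplicit false

namespace Pool.Agent.Results.MP_eadf0f_ag.TorsionInTP

universe u v w x y

/-- Data of topological periodic cyclic homology and periodic cyclic homology of a saturated dg category `A`
over the perfect field `k` of characteristic `p`, with the action of `K = K_0(A^op ⊗ A)`. `W` is the ring of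
Witt vectors of `k`. `TP i` and `HP i`, the even parts (`i = false`) and the odd parts (`i = true`), are
modules over `W`, and `red i` and `bock i` are linear maps; the elements of `K` act by `actT` and `actH`. -/
structure Data (W : Type u) [CommRing W] (K : Type v) where
  /-- topological periodic cyclic homology -/
  TP : Bool → Type w
  [grpT : ∀ i, AddCommGroup (TP i)]
  [modT : ∀ i, Module W (TP i)]
  /-- periodic cyclic homology -/
  HP : Bool → Type w
  [grpH : ∀ i, AddCommGroup (HP i)]
  [modH : ∀ i, Module W (HP i)]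
  /-- reduction modulo `p` -/
  red : ∀ i, TP i →ₗ[W] HP i
  /-- the connecting homomorphism -/
  bock : ∀ i, HP i →ₗ[W] TP (!i)
  /-- the action of the correspondences on `TP` -/
  actT : ∀ i, K → TP i →ₗ[W] TP i
  /-- the action of the correspondences on `HP` -/
  actH : ∀ i, K → HP i →ₗ[W] HP i

attribute [instance] Data.grpT Data.modT Data.grpH Data.modH

section Defs

variable {W : Type u} [CommRing W] {K : Type v}

/-- The exact sequence `T ⟶ T ⟶ H ⟶ T' ⟶ T'` given by `p`, `red`, `bock` and `p`, where `T` is a finitely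
generated `W`-module and `H` is killed by `p`. -/
structure ExactSequence {T H T' : Type w} [AddCommGroup T] [Module W T] [AddCommGroup H] [Module W H]
    [AddCommGroup T'] [Module W T'] (p : ℕ) (red : T →ₗ[W] H) (bock : H →ₗ[W] T') : Prop where
  finite : Module.Finite W T
  killed : ∀ z : H, p • z = 0
  exact_red : Function.Exact (fun t : T => p • t) red
  exact_bock : Function.Exact red bock
  exact_mul : Function.Exact bock (fun t : T' => p • t)

/-- The map `u` from `M` to `N` is compatible with the operators `a` and `b`. -/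
def Compatible {M N : Type w} [AddCommGroup M] [Module W M] [AddCommGroup N] [Module W N]
    (u : M →ₗ[W] N) (a : M →ₗ[W] M) (b : N →ₗ[W] N) : Prop := ∀ x, u (a x) = b (u x)

/-- The known properties: `TP i` is finitely generated and `HP i` is killed by `p` (it is a vector space over
`k = W / p`); the sequences `TP i ⟶ TP i ⟶ HP i ⟶ TP (!i) ⟶ TP (!i)`, given by `p`, `red i`, `bock i` and
`p`, are exact; and the correspondences act compatibly on them. -/
structure IsRealisation (p : ℕ) (R : Data.{u, v, w} W K) : Prop where
  exact : ∀ i, ExactSequence p (R.red i) (R.bock i)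
  red_act : ∀ i f, Compatible (R.red i) (R.actT i f) (R.actH i f)
  bock_act : ∀ i f, Compatible (R.bock i) (R.actH i f) (R.actT (!i) f)

/-- The combination `∑ c_j f_j`, with `c_j` in the extension field `E` of `k` and `f_j` in
`K = K_0(A^op ⊗ A)`, acts on the part `i` of `E ⊗ HP(A)` as the scalar `a`. (This is expressed by the values
`φ(x)` of the linear maps `φ` from `HP i` to `E` at the elements `x` of `HP i`; these `φ` are the linear
functionals on `E ⊗ HP i`.) -/
def ActsAs (R : Data.{u, v, w} W K) {E : Type y} [Field E] [Algebra W E] {n : ℕ}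
    (c : Fin n → E) (f : Fin n → K) (i : Bool) (a : E) : Prop :=
  ∀ (φ : R.HP i →ₗ[W] E) (x : R.HP i), ∑ j, c j * φ (R.actH i (f j) x) = a * φ x

/-- The operator which is the scalar `a` on the even part and the scalar `b` on the odd part of the
periodic cyclic homology of `A`, with coefficients extended to `E`, is the realisation of a noncommutative
correspondence with coefficients in the field `F`. Here `E` is a field which contains `k` and `F` (the larger
one of them in the setting of the problem). The Kunneth projector `π⁺` is the case `a = 1`, `b = 0`, and `π⁻`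
is the case `a = 0`, `b = 1`. -/
def IsAlgebraic (R : Data.{u, v, w} W K) (F : Type x) {E : Type y} [Field F] [Field E]
    [Algebra W E] [Algebra F E] (a b : E) : Prop :=
  ∃ (n : ℕ) (c : Fin n → F) (f : Fin n → K),
    ActsAs R (fun j => algebraMap F E (c j)) f false a ∧ ActsAs R (fun j => algebraMap F E (c j)) f true b

end Defs

/-- Linear algebra: a functional on a linear relation. -/
theorem exists_functional {k P Q : Type*} [Field k] [AddCommGroup P] [Module k P] [AddCommGroup Q]
    [Module k Q] (G : Submodule k (P × Q)) (ν : Q →ₗ[k] k) (h : ∀ z, ((0 : P), z) ∈ G → ν z = 0) :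
    ∃ ρ : P →ₗ[k] k, ∀ u z, (u, z) ∈ G → ρ u = ν z := by
  set a : G →ₗ[k] P := (LinearMap.fst k P Q).comp G.subtype with ha
  set b : G →ₗ[k] k := ν.comp ((LinearMap.snd k P Q).comp G.subtype) with hb
  have hk : b ∈ (LinearMap.ker a).dualAnnihilator := by
    rw [Submodule.mem_dualAnnihilator]
    rintro ⟨⟨u, z⟩, hg⟩ hx
    have h0 : u = 0 := hx
    subst h0
    exact h z hg
  rw [← LinearMap.range_dualMap_eq_dualAnnihilator_ker, LinearMap.mem_range] at hk
  obtain ⟨ρ, hρ⟩ := hk
  exact ⟨ρ, fun u z hg => LinearMap.congr_fun hρ ⟨(u, z), hg⟩⟩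

/-- Modules killed by `p`: a relation which is stable under `W`, and an element which is not in a submodule,
have functionals with values in every field `E` over `W`. -/
theorem exists_functionals {p : ℕ} {W : Type*} [CommRing W] [IsDomain W] [IsDiscreteValuationRing W]
    (hp : Irreducible (p : W)) {E : Type*} [Field E] [Algebra W E] (hE : (p : E) = 0) {P Q : Type*}
    [AddCommGroup P] [Module W P] [AddCommGroup Q] [Module W Q] (hP : ∀ z : P, (p : W) • z = 0)
    (hQ : ∀ z : Q, (p : W) • z = 0) (N : Submodule W Q) (z : Q) (hz : z ∉ N) (G : Submodule W (P × Q))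
    (hG : ∀ z, ((0 : P), z) ∈ G → z ∈ N) :
    ∃ (ν : Q →ₗ[W] E) (ρ : P →ₗ[W] E), ν z ≠ 0 ∧ ∀ u z, (u, z) ∈ G → ρ u = ν z := by
  classical
  set I : Ideal W := Ideal.span {(p : W)} with hI
  have hmax : I.IsMaximal := PrincipalIdealRing.isMaximal_of_irreducible hp
  let _ : Field (W ⧸ I) := Ideal.Quotient.field I
  have hPI : Module.IsTorsionBySet W P I := by
    rw [hI, Module.isTorsionBySet_span_singleton_iff]
    exact fun z => hP z
  have hQI : Module.IsTorsionBySet W Q I := by
    rw [hI, Module.isTorsionBySet_span_singleton_iff]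
    exact fun z => hQ z
  let _ : Module (W ⧸ I) P := hPI.module
  let _ : Module (W ⧸ I) Q := hQI.module
  have e1 : ∀ (w : W) (x : P), (Ideal.Quotient.mk I w) • x = w • x := fun w x => hPI.mk_smul w x
  have e2 : ∀ (w : W) (x : Q), (Ideal.Quotient.mk I w) • x = w • x := fun w x => hQI.mk_smul w x
  set N' : Submodule (W ⧸ I) Q :=
    { N with
      smul_mem' := by
        intro a z hz
        obtain ⟨w, rfl⟩ := Ideal.Quotient.mk_surjective a
        rw [e2]
        exact N.smul_mem w hz } with hN'
  set G' : Submodule (W ⧸ I) (P × Q) :=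
    { G with
      smul_mem' := by
        intro a z hz
        obtain ⟨w, rfl⟩ := Ideal.Quotient.mk_surjective a
        have h1 : (Ideal.Quotient.mk I w) • z = w • z := Prod.ext (e1 w z.1) (e2 w z.2)
        rw [h1]
        exact G.smul_mem w hz } with hG'
  obtain ⟨ν, hν, hνN⟩ := Submodule.exists_le_ker_of_notMem (p := N') (v := z) hz
  obtain ⟨ρ, hρ⟩ := exists_functional G' ν fun y hy => hνN (hG y hy)
  set ι : W ⧸ I →+* E := Ideal.Quotient.lift I (algebraMap W E) (by
    intro a ha
    rw [hI, Ideal.mem_span_singleton] at ha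
    obtain ⟨b, rfl⟩ := ha
    rw [map_mul, map_natCast, hE, zero_mul]) with hι
  refine ⟨{ toFun := fun y => ι (ν y), map_add' := ?_, map_smul' := ?_ },
    { toFun := fun y => ι (ρ y), map_add' := ?_, map_smul' := ?_ }, ?_, ?_⟩
  · intro a b
    rw [map_add, map_add]
  · intro w y
    rw [← e2, map_smul, smul_eq_mul, map_mul, hι, Ideal.Quotient.lift_mk, RingHom.id_apply, Algebra.smul_def]
  · intro a b
    rw [map_add, map_add]
  · intro w y
    rw [← e1, map_smul, smul_eq_mul, map_mul, hι, Ideal.Quotient.lift_mk, RingHom.id_apply, Algebra.smul_def]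
  · show ι (ν z) ≠ 0
    rw [Ne, map_eq_zero]
    exact hν
  · intro u y huy
    show ι (ρ u) = ι (ν y)
    rw [hρ u y huy]

/-- The torsion of a finitely generated module is killed by a power of `q`. -/
theorem exists_exponent {W M : Type*} [CommRing W] [IsNoetherianRing W] [AddCommGroup M] [Module W M]
    [Module.Finite W M] (q : W) : ∃ m : ℕ, ∀ t : M, (∃ l : ℕ, q ^ l • t = 0) → q ^ m • t = 0 := by
  set N : Submodule W M :=
    { carrier := {t | ∃ l : ℕ, q ^ l • t = 0}
      add_mem' := by
        rintro a b ⟨l, hl⟩ ⟨l', hl'⟩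
        refine ⟨l + l', ?_⟩
        rw [smul_add, pow_add, mul_smul, mul_smul, hl', smul_zero, add_zero, smul_comm, hl, smul_zero]
      zero_mem' := ⟨0, by simp⟩
      smul_mem' := by
        rintro c a ⟨l, hl⟩
        exact ⟨l, by rw [smul_comm, hl, smul_zero]⟩ } with hN
  have hfg : N.FG := IsNoetherian.noetherian N
  obtain ⟨s, hs⟩ := hfg
  have hex : ∀ t ∈ s, ∃ l : ℕ, q ^ l • t = 0 := by
    intro t ht
    have h1 : t ∈ N := by
      rw [← hs]
      exact Submodule.subset_span ht
    exact h1
  choose! l hl using hex
  refine ⟨s.sup l, fun t ht => ?_⟩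
  have h1 : t ∈ Submodule.span W (s : Set M) := by
    rw [hs]
    exact ht
  have h2 : Submodule.span W (s : Set M) ≤ LinearMap.ker (q ^ s.sup l • (LinearMap.id : M →ₗ[W] M)) := by
    rw [Submodule.span_le]
    intro a ha
    have h2 : l a ≤ s.sup l := Finset.le_sup (f := l) ha
    obtain ⟨c, hc⟩ := Nat.exists_eq_add_of_le h2
    show q ^ s.sup l • a = 0
    rw [hc, pow_add, mul_comm, mul_smul, hl a ha, smul_zero]
  exact h2 h1

section Main

variable {p : ℕ} {W : Type u} [CommRing W] [IsDomain W] [IsDiscreteValuationRing W] {K : Type v}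

omit [IsDomain W] [IsDiscreteValuationRing W] in
theorem killed_smul {R : Data.{u, v, w} W K} (hR : IsRealisation p R) (i : Bool) (z : R.HP i) :
    (p : W) • z = 0 := by
  rw [Nat.cast_smul_eq_nsmul]
  exact (hR.exact i).killed z

omit [IsDomain W] [IsDiscreteValuationRing W] in
theorem red_eq_zero {R : Data.{u, v, w} W K} (hR : IsRealisation p R) (i : Bool) (t : R.TP i) :
    R.red i t = 0 ↔ ∃ s : R.TP i, t = (p : W) • s := by
  rw [(hR.exact i).exact_red t]
  constructor
  · rintro ⟨s, hs⟩
    exact ⟨s, by rw [Nat.cast_smul_eq_nsmul]; exact hs.symm⟩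
  · rintro ⟨s, hs⟩
    exact ⟨s, by rw [Nat.cast_smul_eq_nsmul] at hs; exact hs.symm⟩

omit [IsDomain W] [IsDiscreteValuationRing W] in
theorem bock_range {R : Data.{u, v, w} W K} (hR : IsRealisation p R) (i : Bool) (t : R.TP (!i)) :
    (p : W) • t = 0 ↔ ∃ z : R.HP i, R.bock i z = t := by
  rw [Nat.cast_smul_eq_nsmul]
  exact (hR.exact i).exact_mul t

/-- A combination of correspondences which acts as scalars on both parts acts as one scalar, if the part
of index `j + 1` of `TP` has torsion. -/
theorem scalars_eq (hp : Irreducible (p : W)) {R : Data.{u, v, w} W K} (hR : IsRealisation p R) {E : Type y} [Field E]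
    [Algebra W E] (hE : (p : E) = 0) (j : Bool)
    (t : R.TP (!j)) (ht : t ≠ 0) (hpt : (p : W) • t = 0) {n : ℕ} (c : Fin n → E)
    (f : Fin n → K) (s s' : E)
    (h : ActsAs R c f j s) (h' : ActsAs R c f (!j) s') : s = s' := by
  classical
  have := (hR.exact (!j)).finite
  obtain ⟨m0, hm0⟩ := exists_exponent (M := R.TP (!j)) (p : W)
  have hne : ∃ m : ℕ, ∀ t : R.TP (!j), (∃ l : ℕ, (p : W) ^ l • t = 0) →
      (p : W) ^ m • t = 0 := ⟨m0, hm0⟩
  set m := Nat.find hne with hm
  have hm1 := Nat.find_spec hne
  rw [← hm] at hm1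
  have hmpos : m ≠ 0 := by
    intro h0
    have h1 := hm1 t ⟨1, by rw [pow_one]; exact hpt⟩
    rw [h0, pow_zero, one_smul] at h1
    exact ht h1
  obtain ⟨d, hd⟩ := Nat.exists_eq_succ_of_ne_zero hmpos
  have hmin : ¬ ∀ t : R.TP (!j), (∃ l : ℕ, (p : W) ^ l • t = 0) →
      (p : W) ^ d • t = 0 := Nat.find_min hne (by omega)
  push Not at hmin
  obtain ⟨x, ⟨l0, hl0⟩, hx⟩ := hmin
  -- the element of `HP`
  have h2 : (p : W) • ((p : W) ^ d • x) = 0 := by
    rw [← mul_smul, ← pow_succ', ← Nat.succ_eq_add_one, ← hd]
    exact hm1 x ⟨l0, hl0⟩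
  obtain ⟨z, hz⟩ := (bock_range hR j _).1 h2
  have hzN : z ∉ LinearMap.ker (R.bock j) := by
    intro h3
    rw [LinearMap.mem_ker, hz] at h3
    exact hx h3
  -- the relation
  set G : Submodule W (R.HP (!j) × R.HP j) :=
    { carrier := {g | ∃ y : R.TP (!j), (∃ l : ℕ, (p : W) ^ l • y = 0) ∧
        R.red (!j) y = g.1 ∧ R.bock j g.2 = (p : W) ^ d • y}
      add_mem' := by
        rintro a b ⟨y, ⟨l, hl⟩, h1, h2⟩ ⟨y', ⟨l', hl'⟩, h1', h2'⟩
        refine ⟨y + y', ⟨l + l', ?_⟩, ?_, ?_⟩
        · rw [smul_add, pow_add, mul_smul, mul_smul, hl', smul_zero, add_zero, smul_comm, hl, smul_zero]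
        · rw [map_add, h1, h1']
          rfl
        · show R.bock j (a.2 + b.2) = _
          rw [map_add, h2, h2', smul_add]
      zero_mem' := ⟨0, ⟨0, by simp⟩, by simp, by simp⟩
      smul_mem' := by
        rintro w g ⟨y, ⟨l, hl⟩, h1, h2⟩
        refine ⟨w • y, ⟨l, by rw [smul_comm, hl, smul_zero]⟩, ?_, ?_⟩
        · rw [map_smul, h1]
          rfl
        · show R.bock j (w • g.2) = _
          rw [map_smul, h2, smul_comm] } with hG
  obtain ⟨ν, ρ, hν, hρ⟩ := exists_functionals hp hE (killed_smul hR (!j)) (killed_smul hR j) _ z hzN G (by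
    rintro z' ⟨y, ⟨l, hl⟩, h3, h4⟩
    obtain ⟨s, hs⟩ := (red_eq_zero hR (!j) y).1 h3
    show R.bock j z' = 0
    have h4' : R.bock j z' = (p : W) ^ d • y := h4
    rw [h4', hs, ← mul_smul, ← pow_succ, ← Nat.succ_eq_add_one, ← hd]
    refine hm1 s ⟨l + 1, ?_⟩
    rw [pow_succ, mul_smul, ← hs, hl])
  have hxz : (R.red (!j) x, z) ∈ G := ⟨x, ⟨l0, hl0⟩, rfl, hz⟩
  have e1 := h ν z
  have e2 := h' ρ (R.red (!j) x)
  have e3 : ∀ l, ρ (R.actH (!j) (f l) (R.red (!j) x)) = ν (R.actH j (f l) z) := by
    intro l
    apply hρ
    refine ⟨R.actT (!j) (f l) x, ⟨l0, ?_⟩, hR.red_act _ _ _, ?_⟩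
    · rw [← map_smul, hl0, map_zero]
    · rw [← map_smul, ← hz]
      exact hR.bock_act j (f l) z
  simp only [e3] at e2
  rw [e1, hρ _ _ hxz] at e2
  exact mul_right_cancel₀ hν e2

/-- If there is no `p`-torsion, then the modules are free. -/
theorem free_of_no_torsion (hp : Irreducible (p : W)) {R : Data.{u, v, w} W K} (hR : IsRealisation p R)
    (i : Bool) (h : ∀ t : R.TP i, (p : W) • t = 0 → t = 0) : Module.Free W (R.TP i) := by
  have := (hR.exact i).finite
  rw [Module.free_iff_isTorsionFree]
  have hpow : ∀ (m : ℕ) (t : R.TP i), (p : W) ^ m • t = 0 → t = 0 := by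
    intro m
    induction m with
    | zero =>
      intro t ht
      rwa [pow_zero, one_smul] at ht
    | succ m ih =>
      intro t ht
      rw [pow_succ, mul_smul] at ht
      exact h t (ih _ ht)
  refine Module.IsTorsionFree.mk fun a ha => ?_
  intro t t' htt
  obtain ⟨m, b, hab⟩ := IsDiscreteValuationRing.eq_unit_mul_pow_irreducible ha.ne_zero hp
  have h1 : a • (t - t') = 0 := by
    rw [smul_sub, sub_eq_zero]
    exact htt
  rw [hab, mul_smul] at h1
  have h2 : (p : W) ^ m • (t - t') = 0 := by
    have h3 := congrArg (fun z => ((b⁻¹ : Wˣ) : W) • z) h1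
    simp only [smul_zero, ← mul_smul, Units.inv_mul_cancel_left] at h3
    exact h3
  exact sub_eq_zero.1 (hpow m _ h2)

end Main

/-- **The noncommutative Kunneth conjecture in positive characteristic.** Let `W` be the ring of Witt
vectors of a perfect field `k` of characteristic `p` (a discrete valuation ring with uniformizer `p`), and
`A` a saturated dg category over `k` such that one of the `W`-modules `TP_i(A)` is not free. Then for every
coefficient field `F`, and every field `E` containing `k` and `F`, neither the Kunneth projector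
`π⁺ = (1, 0)` nor the Kunneth projector `π⁻ = (0, 1)` is algebraic; more generally, a noncommutative
correspondence which acts as a scalar on the even part and on the odd part acts as the same scalar. -/
theorem result (p : ℕ) (W : Type u) [CommRing W] [IsDomain W] [IsDiscreteValuationRing W]
    (hp : Irreducible (p : W)) (K : Type v) (R : Data.{u, v, w} W K) (hR : IsRealisation p R)
    (h : ∃ i, ¬ Module.Free W (R.TP i))
    (F : Type x) (E : Type y) [Field F] [Field E] [Algebra W E] [Algebra F E] (hE : (p : E) = 0) :
    ¬ IsAlgebraic R F (1 : E) 0 ∧ ¬ IsAlgebraic R F (0 : E) 1 ∧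
      ∀ a b : E, IsAlgebraic R F a b → a = b := by
  obtain ⟨i, t, ht, hpt⟩ : ∃ (i : Bool) (t : R.TP i), t ≠ 0 ∧ (p : W) • t = 0 := by
    by_contra hcon
    push Not at hcon
    obtain ⟨i, hi⟩ := h
    refine hi (free_of_no_torsion hp hR i fun t ht => ?_)
    by_contra h1
    exact hcon i t h1 ht
  have key : ∀ a b : E, IsAlgebraic R F a b → a = b := by
    rintro a b ⟨n, c, f, h1, h2⟩
    cases i
    · exact (scalars_eq hp hR hE true t ht hpt _ f b a h2 h1).symm
    · exact scalars_eq hp hR hE false t ht hpt _ f a b h1 h2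
  exact ⟨fun h => one_ne_zero (key _ _ h), fun h => zero_ne_one (key _ _ h), key⟩

end Pool.Agent.Results.MP_eadf0f_ag.TorsionInTP
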